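import Pool.Agent.Helper94.LB.GlueDef
import Pool.Agent.Helper78.SchubFam

/-! Module A of MP_660525_LB: `ν (w' ⊕ u) = ν w' * ν (1 ⊕ u)`. -/

namespace Pool.Agent.Helper94.LB

open Pool.Agent.Helper78.Schub Equiv
open Pool.Agent.Helper43.LB (glue glue_left glue_right glue_one glue_mul glue_eq_one)

variable {p m : ℕ}

theorem glue_val_left (w' : Perm (Fin p)) (u : Perm (Fin m)) (i : ℕ) (hi : i < p)
    (hi' : i < p + m) : ((glue w' u ⟨i, hi'⟩ : Fin (p + m)) : ℕ) = (w' ⟨i, hi⟩ : ℕ) := by
  have : (⟨i, hi'⟩ : Fin (p + m)) = Fin.castAdd m ⟨i, hi⟩ := rfl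
  rw [this, glue_left]; rfl

theorem glue_val_right (w' : Perm (Fin p)) (u : Perm (Fin m)) (i : ℕ) (hi : i < m)
    (hi' : p + i < p + m) : ((glue w' u ⟨p + i, hi'⟩ : Fin (p + m)) : ℕ) = p + (u ⟨i, hi⟩ : ℕ) := by
  have : (⟨p + i, hi'⟩ : Fin (p + m)) = Fin.natAdd p ⟨i, hi⟩ := rfl
  rw [this, glue_right]; rfl

theorem desc_glue_lt (w' : Perm (Fin p)) (u : Perm (Fin m)) (i : ℕ) (hi : i + 1 < p) :
    Desc (glue w' u) i ↔ Desc w' i := by
  rw [desc_of _ i (show i + 1 < p + m by omega), desc_of _ i hi, Fin.lt_def, Fin.lt_def,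
    glue_val_left w' u (i + 1) hi, glue_val_left w' u i (by omega)]

theorem desc_glue_eq (w' : Perm (Fin p)) (u : Perm (Fin m)) (i : ℕ) (hi : i + 1 = p) :
    ¬ Desc (glue w' u) i := by
  rintro ⟨h, hlt⟩
  subst hi
  rw [Fin.lt_def, glue_val_left w' u i (by omega)] at hlt
  have h2 := glue_val_right w' u 0 (by omega) (by omega)
  have h3 : (w' ⟨i, by omega⟩ : ℕ) < i + 1 := (w' ⟨i, by omega⟩).2
  simp only [add_zero] at h2
  omega

theorem desc_glue_ge (w' : Perm (Fin p)) (u : Perm (Fin m)) (i : ℕ) :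
    Desc (glue w' u) (p + i) ↔ Desc u i := by
  constructor
  · rintro ⟨h, hlt⟩
    refine ⟨by omega, ?_⟩
    rw [Fin.lt_def, glue_val_right w' u i (by omega)] at hlt
    have e := glue_val_right w' u (i + 1) (by omega) (by omega)
    have e' : ((glue w' u ⟨p + i + 1, h⟩ : Fin (p + m)) : ℕ) = p + (u ⟨i + 1, by omega⟩ : ℕ) := e
    rw [e'] at hlt
    rw [Fin.lt_def]
    omega
  · rintro ⟨h, hlt⟩
    refine ⟨by omega, ?_⟩
    rw [Fin.lt_def, glue_val_right w' u i (by omega)]
    have e := glue_val_right w' u (i + 1) (by omega) (by omega)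
    have e' : ((glue w' u ⟨p + i + 1, by omega⟩ : Fin (p + m)) : ℕ)
      = p + (u ⟨i + 1, by omega⟩ : ℕ) := e
    rw [e']
    rw [Fin.lt_def] at hlt
    omega

theorem glue_sw_lt (w' : Perm (Fin p)) (u : Perm (Fin m)) (i : ℕ) (hi : i + 1 < p) :
    glue w' u * sw (p + m) i = glue (w' * sw p i) u := by
  rw [sw_of i hi, sw_of i (show i + 1 < p + m by omega)]
  have : (adj i (show i + 1 < p + m by omega) : Perm (Fin (p + m))) = glue (adj i hi) 1 := by
    apply Equiv.ext
    intro k
    induction k using Fin.addCases with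
    | left k =>
      rw [glue_left]
      by_cases h1 : (k : ℕ) = i
      · obtain ⟨k, hk⟩ := k
        obtain rfl : k = i := h1
        exact (adj_left k _).trans (congrArg (Fin.castAdd m) (adj_left k hi)).symm
      by_cases h2 : (k : ℕ) = i + 1
      · obtain ⟨k, hk⟩ := k
        obtain rfl : k = i + 1 := h2
        exact (adj_right i _).trans (congrArg (Fin.castAdd m) (adj_right i hi)).symm
      rw [adj_ne i hi k h1 h2, adj_ne i _ _ (by simpa using h1) (by simpa using h2)]
    | right k =>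
      rw [glue_right, adj_ne i _ _ (by simp; omega) (by simp; omega)]; rfl
  rw [this, glue_mul, mul_one]

theorem glue_sw_ge (w' : Perm (Fin p)) (u : Perm (Fin m)) (i : ℕ) (hi : i + 1 < m) :
    glue w' u * sw (p + m) (p + i) = glue w' (u * sw m i) := by
  rw [sw_of i hi, sw_of (p + i) (show p + i + 1 < p + m by omega)]
  have : (adj (p + i) (show p + i + 1 < p + m by omega) : Perm (Fin (p + m)))
      = glue 1 (adj i hi) := by
    apply Equiv.ext
    intro k
    induction k using Fin.addCases with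
    | left k =>
      rw [glue_left, adj_ne (p + i) _ _ (by simp; omega) (by simp; omega)]; rfl
    | right k =>
      rw [glue_right]
      by_cases h1 : (k : ℕ) = i
      · obtain ⟨k, hk⟩ := k
        obtain rfl : k = i := h1
        exact (adj_left (p + k) _).trans (congrArg (Fin.natAdd p) (adj_left k hi)).symm
      by_cases h2 : (k : ℕ) = i + 1
      · obtain ⟨k, hk⟩ := k
        obtain rfl : k = i + 1 := h2
        exact (adj_right (p + i) _).trans (congrArg (Fin.natAdd p) (adj_right i hi)).symm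
      rw [adj_ne i hi k h1 h2, adj_ne (p + i) _ _ (by simpa using h1) (by
        simp only [Fin.val_natAdd]; omega)]
  rw [this, glue_mul, mul_one]

variable {R : Type*} [CommRing R]

/-- `f` restricted to the block sums is the product of `A` and `B` -/
def Spl (f : Perm (Fin (p + m)) → R) (A : Perm (Fin p) → R) (B : Perm (Fin m) → R) : Prop :=
  ∀ w' u, f (glue w' u) = A w' * B u

theorem Spl_hh_lt {f : Perm (Fin (p + m)) → R} {A : Perm (Fin p) → R} {B : Perm (Fin m) → R}
    (h : Spl f A B) (i : ℕ) (x : R) (hi : i + 1 < p) :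
    Spl (hh (U R (p + m)) i x f) (hh (U R p) i x A) B := by
  intro w' u
  rw [hh_apply, hh_apply, h w' u, glue_sw_lt w' u i hi, h]
  by_cases hd : Desc w' i
  · rw [if_pos hd, if_pos ((desc_glue_lt w' u i hi).2 hd)]; ring
  · rw [if_neg hd, if_neg (fun hh => hd ((desc_glue_lt w' u i hi).1 hh))]; ring

theorem Spl_hh_eq {f : Perm (Fin (p + m)) → R} {A : Perm (Fin p) → R} {B : Perm (Fin m) → R}
    (h : Spl f A B) (i : ℕ) (x : R) (hi : i + 1 = p) :
    Spl (hh (U R (p + m)) i x f) A B := by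
  intro w' u
  rw [hh_apply, h w' u, if_neg (desc_glue_eq w' u i hi)]
  ring

theorem Spl_hh_ge {f : Perm (Fin (p + m)) → R} {A : Perm (Fin p) → R} {B : Perm (Fin m) → R}
    (h : Spl f A B) (i : ℕ) (x : R) (hi : i + 1 < m) :
    Spl (hh (U R (p + m)) (p + i) x f) A (hh (U R m) i x B) := by
  intro w' u
  rw [hh_apply, hh_apply, h w' u, glue_sw_ge w' u i hi, h]
  by_cases hd : Desc u i
  · rw [if_pos hd, if_pos ((desc_glue_ge w' u i).2 hd)]; ring
  · rw [if_neg hd, if_neg (fun hh => hd ((desc_glue_ge w' u i).1 hh))]; ring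

theorem Spl_row {f : Perm (Fin (p + m)) → R} {A : Perm (Fin p) → R} {B : Perm (Fin m) → R}
    (h : Spl f A B) (x : R) : ∀ (k j : ℕ), k = p + m - 1 - j →
    Spl (row (U R (p + m)) x j (p + m - 1 - j) f) (row (U R p) x j (p - 1 - j) A)
      (row (U R m) x (j - p) (m - 1 - (j - p)) B) := by
  intro k
  induction k with
  | zero =>
    intro j hj
    have e1 : p + m - 1 - j = 0 := by omega
    have e2 : p - 1 - j = 0 := by omega
    have e3 : m - 1 - (j - p) = 0 := by omega
    rw [e1, e2, e3]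
    exact h
  | succ k ih =>
    intro j hj
    have h1 := ih (j + 1) (by omega)
    have e1 : p + m - 1 - j = (p + m - 1 - (j + 1)) + 1 := by omega
    rw [e1, row_succ]
    rcases lt_trichotomy (j + 1) p with hlt | heq | hgt
    · have e2 : p - 1 - j = (p - 1 - (j + 1)) + 1 := by omega
      have e3 : j - p = j + 1 - p := by omega
      rw [e2, row_succ, e3]
      exact Spl_hh_lt h1 j x hlt
    · have e2 : p - 1 - j = 0 := by omega
      have e2' : p - 1 - (j + 1) = 0 := by omega
      have e3 : j - p = j + 1 - p := by omega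
      rw [e2'] at h1
      rw [e2, e3]
      exact Spl_hh_eq h1 j x heq
    · have e2 : p - 1 - j = 0 := by omega
      have e2' : p - 1 - (j + 1) = 0 := by omega
      have e3 : m - 1 - (j - p) = (m - 1 - (j + 1 - p)) + 1 := by omega
      have e4 : j + 1 - p = (j - p) + 1 := by omega
      rw [e2'] at h1
      rw [e2, e3, row_succ, e4]
      rw [e4] at h1
      obtain ⟨i, rfl⟩ : ∃ i, j = p + i := ⟨j - p, by omega⟩
      have e5 : p + i - p = i := by omega
      rw [e5] at h1 ⊢
      exact Spl_hh_ge h1 i x (by omega)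

/-- the `u`-part -/
noncomputable def GG (R : Type*) [CommRing R] (p m : ℕ) (c : ℕ → R) : ℕ → Perm (Fin m) → R
  | 0 => dl R m
  | k + 1 => row (U R m) (c k) (k - p) (m - 1 - (k - p)) (GG R p m c k)

theorem Spl_FF (c : ℕ → R) (k : ℕ) :
    Spl (FF R (p + m) c k) (FF R p c k) (GG R p m c k) := by
  induction k with
  | zero =>
    intro w' u
    simp only [FF, GG, dl, glue_eq_one]
    by_cases h1 : w' = 1 <;> by_cases h2 : u = 1 <;> simp [h1, h2]
  | succ k ih => exact Spl_row ih (c k) _ k rfl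

theorem FF_add (c : ℕ → R) (k : ℕ) : FF R p c (p + k) = FF R p c p := by
  induction k with
  | zero => rfl
  | succ k ih =>
    have : FF R p c (p + (k + 1)) = row (U R p) (c (p + k)) (p + k) (p - 1 - (p + k))
      (FF R p c (p + k)) := rfl
    rw [this, ih]
    have e : p - 1 - (p + k) = 0 := by omega
    rw [e]
    rfl

theorem FF_glue (c : ℕ → R) (w' : Perm (Fin p)) (u : Perm (Fin m)) :
    FF R (p + m) c (p + m) (glue w' u)
      = FF R p c p w' * FF R (p + m) c (p + m) (glue 1 u) := by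
  rw [Spl_FF c (p + m) w' u, Spl_FF c (p + m) 1 u, FF_add, FF_one, one_mul]

theorem eval_family {n : ℕ} (T : Perm (Fin n) → MvPolynomial (Fin n) ℤ)
    (hT : IsSchubertFamily n T) (w : Perm (Fin n)) :
    MvPolynomial.eval (fun _ => (1 : ℤ)) (T w) = FF ℤ n (fun _ => 1) n w := by
  rw [family_unique T _ hT (isSchubertFamily_FF n)]
  have h := congrFun (FF_natural (n := n) (MvPolynomial.eval (fun _ : Fin n => (1 : ℤ)))
    (xv n) n) w
  rw [show MvPolynomial.eval (fun _ : Fin n => (1 : ℤ)) (FF _ n (xv n) n w) = _ from h, FF_congr _ (fun _ => (1 : ℤ)) n]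
  intro j hj
  simp [xv, hj]

end Pool.Agent.Helper94.LB

namespace Pool.Agent.Helper43.LB

open Pool.Agent.Helper78.Schub Pool.Agent.Helper94.LB

/-- `ν (w' ⊕ u) = ν w' * ν (1 ⊕ u)`, `ν` the principal evaluation of the Schubert polynomial. -/
theorem eval_glue (S : (n : ℕ) → Equiv.Perm (Fin n) → MvPolynomial (Fin n) ℤ)
    (hS : ∀ n, IsSchubertFamily n (S n)) (p m : ℕ) (w' : Equiv.Perm (Fin p))
    (u : Equiv.Perm (Fin m)) :
    MvPolynomial.eval (fun _ => (1 : ℤ)) (S (p + m) (glue w' u))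
      = MvPolynomial.eval (fun _ => (1 : ℤ)) (S p w')
        * MvPolynomial.eval (fun _ => (1 : ℤ)) (S (p + m) (glue 1 u)) := by
  rw [eval_family _ (hS (p + m)), eval_family _ (hS (p + m)), eval_family _ (hS p)]
  exact FF_glue _ w' u

end Pool.Agent.Helper43.LB
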