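import Pool.Agent.Helper43.LB.Defs

/-! Module L of MP_660525_LB: the growth constant of the layered recursion. -/

namespace Pool.Agent.Helper94.LB

open Finset Filter Topology
open Pool.Agent.Helper43.LB (Gf Sf ph)

theorem Gf_scale (c y : ℝ) (hc : 0 < c) (hy : 0 ≤ y) :
    Gf (c * y) = c ^ 2 * Gf y + c ^ 2 * y ^ 2 / 2 * Real.log c := by
  unfold Gf
  rcases hy.eq_or_lt with h | h
  · rw [← h]; simp
  · rw [Real.log_mul hc.ne' h.ne']
    ring

theorem Sf_scale (c m p : ℝ) (hc : 0 < c) (hm : 0 ≤ m) (hp : 0 ≤ p) :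
    Sf (c * m) (c * p) = c ^ 2 * Sf m p := by
  unfold Sf
  have e1 : 2 * (c * p) + 2 * (c * m) = c * (2 * p + 2 * m) := by ring
  have e2 : 2 * (c * p) = c * (2 * p) := by ring
  have e3 : c * (2 * p) + c * m = c * (2 * p + m) := by ring
  have e4 : 2 * (c * m) = c * (2 * m) := by ring
  rw [e1, e2, e3, e4, Gf_scale c m hc hm, Gf_scale c _ hc (by positivity),
    Gf_scale c _ hc (by positivity), Gf_scale c _ hc (by positivity),
    Gf_scale c _ hc (by positivity)]
  ring

theorem Sf_eq (m p : ℝ) (hm : 0 < m) (hp : 0 ≤ p) :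
    Sf m p = ph (p / m) * ((p + m) ^ 2 - p ^ 2) := by
  have h1 := Sf_scale m 1 (p / m) hm (by norm_num) (by positivity)
  rw [mul_one, mul_div_cancel₀ p hm.ne'] at h1
  rw [h1, ph]
  have h2 : 1 + 2 * (p / m) ≠ 0 := by positivity
  field_simp
  ring

theorem Gf_continuous : Continuous Gf := by
  have h : Gf = fun y => y / 2 * (y * Real.log y) - 3 / 4 * y ^ 2 := by
    funext y
    unfold Gf
    ring
  rw [h]
  have := Real.continuous_mul_log
  fun_prop

theorem ph_continuousAt (P : ℝ) (hP : 0 < P) : ContinuousAt ph P := by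
  have h : ph = fun y => Sf 1 y / (1 + 2 * y) := rfl
  rw [h]
  apply ContinuousAt.div
  · unfold Sf
    have := Gf_continuous
    fun_prop
  · fun_prop
  · positivity

/-- the layered recursion -/
theorem growth (lam : ℕ → ℝ) (Z : ℕ → ℕ → ℝ) (h0 : ∀ n, 0 ≤ lam n) (h00 : lam 0 = 0)
    (hup : ∀ n, 1 ≤ n → ∃ p m, p + m = n ∧ 1 ≤ m ∧ lam n ≤ lam p + Z m p)
    (hlo : ∀ p m, 1 ≤ m → lam p + Z m p ≤ lam (p + m))
    (hlog : ∃ C : ℝ, ∀ m p : ℕ, 1 ≤ m → |Z m p - Sf m p| ≤ C * m * Real.log (p + m + 1))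
    (P : ℝ) (hP0 : 0 < P) (hP : ∀ Q, 0 ≤ Q → ph Q ≤ ph P) :
    Tendsto (fun n : ℕ => lam n / (n : ℝ) ^ 2) atTop (𝓝 (ph P)) := by
  obtain ⟨C0, hC0⟩ := hlog
  obtain ⟨C, hC, hC1⟩ : ∃ C : ℝ, 0 ≤ C ∧ ∀ m p : ℕ, 1 ≤ m →
      |Z m p - Sf m p| ≤ C * m * Real.log (p + m + 1) := by
    refine ⟨|C0|, abs_nonneg _, fun m p hm => (hC0 m p hm).trans ?_⟩
    have h1 : 0 ≤ Real.log (p + m + 1) := Real.log_nonneg (by
      have : (0 : ℝ) ≤ p := Nat.cast_nonneg p
      have : (0 : ℝ) ≤ m := Nat.cast_nonneg m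
      linarith)
    have h2 : C0 ≤ |C0| := le_abs_self C0
    gcongr
  -- upper bound
  have hupper : ∀ n : ℕ, lam n ≤ ph P * (n : ℝ) ^ 2 + C * n * Real.log (n + 1) := by
    intro n
    induction n using Nat.strong_induction_on with
    | _ n ih =>
      rcases Nat.eq_zero_or_pos n with hn | hn
      · subst hn
        simp [h00]
      · obtain ⟨p, m, hpm, hm, hl⟩ := hup n hn
        have h1 := ih p (by omega)
        have h2 := (abs_le.1 (hC1 m p hm)).2
        have hm0 : (0 : ℝ) < m := by exact_mod_cast hm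
        have hp0 : (0 : ℝ) ≤ p := Nat.cast_nonneg p
        have h3 := Sf_eq m p hm0 hp0
        have h4 := hP (p / m) (by positivity)
        have h5 : 0 ≤ ((p : ℝ) + m) ^ 2 - (p : ℝ) ^ 2 := by nlinarith
        have h6 : Sf m p ≤ ph P * (((p : ℝ) + m) ^ 2 - (p : ℝ) ^ 2) := by
          rw [h3]; exact mul_le_mul_of_nonneg_right h4 h5
        have hn' : (n : ℝ) = p + m := by rw [← hpm]; push_cast; ring
        have h7 : C * p * Real.log (p + 1) ≤ C * p * Real.log (p + m + 1) := by
          apply mul_le_mul_of_nonneg_left _ (by positivity)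
          apply Real.log_le_log (by positivity)
          linarith
        rw [hn']
        nlinarith
  -- lower bound
  have hlower : ∀ ε : ℝ, 0 < ε → ∃ K : ℝ, ∀ n : ℕ, (ph P - 2 * ε) * (n : ℝ) ^ 2 - K ≤ lam n := by
    intro ε hε
    set x : ℝ := P / (1 + P) with hx
    have hx0 : 0 < x := by positivity
    have hx1 : x < 1 := by
      rw [hx, div_lt_one (by positivity)]; linarith
    have hxP : x / (1 - x) = P := by
      rw [hx]; field_simp; ring
    -- the ratio
    have hfl : Tendsto (fun n : ℕ => ((⌊x * (n : ℝ)⌋₊ : ℕ) : ℝ) / n) atTop (𝓝 x) :=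
      (tendsto_nat_floor_mul_div_atTop hx0.le).comp tendsto_natCast_atTop_atTop
    have hratio : Tendsto (fun n : ℕ => ((⌊x * (n : ℝ)⌋₊ : ℕ) : ℝ) / n
        / (1 - ((⌊x * (n : ℝ)⌋₊ : ℕ) : ℝ) / n)) atTop (𝓝 P) := by
      rw [← hxP]
      apply hfl.div (tendsto_const_nhds.sub hfl)
      linarith
    have hph : ∀ᶠ n : ℕ in atTop, ph P - ε < ph (((⌊x * (n : ℝ)⌋₊ : ℕ) : ℝ) / n
        / (1 - ((⌊x * (n : ℝ)⌋₊ : ℕ) : ℝ) / n)) := by
      have h1 : Tendsto (fun n : ℕ => ph (((⌊x * (n : ℝ)⌋₊ : ℕ) : ℝ) / n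
        / (1 - ((⌊x * (n : ℝ)⌋₊ : ℕ) : ℝ) / n))) atTop (𝓝 (ph P)) :=
        (ph_continuousAt P hP0).tendsto.comp hratio
      exact h1.eventually_const_lt (by linarith)
    have hlogn : Tendsto (fun n : ℕ => Real.log ((n : ℝ) + 1) / n) atTop (𝓝 0) := by
      have h1 : Tendsto (fun y : ℝ => Real.log y / y) atTop (𝓝 0) := by
        have := Real.isLittleO_log_id_atTop
        exact this.tendsto_div_nhds_zero
      have h2 : Tendsto (fun n : ℕ => ((n : ℝ) + 1)) atTop atTop :=
        tendsto_atTop_add_const_right _ _ tendsto_natCast_atTop_atTop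
      have h3 := h1.comp h2
      have h4 : Tendsto (fun n : ℕ => ((n : ℝ) + 1) / n) atTop (𝓝 1) := by
        have h5 : Tendsto (fun n : ℕ => 1 + 1 / (n : ℝ)) atTop (𝓝 (1 + 0)) :=
          tendsto_const_nhds.add tendsto_one_div_atTop_nhds_zero_nat
        rw [add_zero] at h5
        apply h5.congr'
        filter_upwards [eventually_gt_atTop 0] with n hn
        have : (0 : ℝ) < n := by exact_mod_cast hn
        field_simp
      have h5 := h3.mul h4
      rw [zero_mul] at h5
      apply h5.congr'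
      filter_upwards [eventually_gt_atTop 0] with n hn
      have : (0 : ℝ) < n := by exact_mod_cast hn
      simp only [Function.comp]
      field_simp
    have hsmall : ∀ᶠ n : ℕ in atTop, C * n * Real.log ((n : ℝ) + 1) ≤
        ε * (1 - x ^ 2) * (n : ℝ) ^ 2 := by
      have h1 : Tendsto (fun n : ℕ => C * (Real.log ((n : ℝ) + 1) / n)) atTop (𝓝 (C * 0)) :=
        tendsto_const_nhds.mul hlogn
      rw [mul_zero] at h1
      have hpos : 0 < ε * (1 - x ^ 2) := by
        apply mul_pos hε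
        nlinarith
      filter_upwards [h1.eventually_lt_const hpos, eventually_gt_atTop 0] with n hn hn0
      have hn1 : (0 : ℝ) < n := by exact_mod_cast hn0
      have e : C * n * Real.log ((n : ℝ) + 1)
          = (C * (Real.log ((n : ℝ) + 1) / n)) * (n : ℝ) ^ 2 := by
        field_simp
      rw [e]
      exact mul_le_mul_of_nonneg_right hn.le (by positivity)
    obtain ⟨N, hN⟩ := eventually_atTop.1 (hph.and hsmall)
    set K : ℝ := |ph P| * ((N : ℝ) + 1) ^ 2 with hK
    have hK0 : 0 ≤ K := by positivity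
    refine ⟨K, ?_⟩
    intro n
    induction n using Nat.strong_induction_on with
    | _ n ih =>
      by_cases hnN : n < N + 1
      · have h1 : (n : ℝ) ^ 2 ≤ ((N : ℝ) + 1) ^ 2 := by
          have : (n : ℝ) ≤ (N : ℝ) + 1 := by exact_mod_cast hnN.le
          gcongr
        have h2 : ph P ≤ |ph P| := le_abs_self _
        have h3 : ph P * (n : ℝ) ^ 2 ≤ K := by
          calc ph P * (n : ℝ) ^ 2 ≤ |ph P| * (n : ℝ) ^ 2 := by gcongr
            _ ≤ K := by rw [hK]; gcongr
        have h4 : 0 ≤ ε * (n : ℝ) ^ 2 := by positivity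
        have := h0 n
        nlinarith
      · have hnN' : N ≤ n := by omega
        obtain ⟨h1, h2⟩ := hN n hnN'
        have hn0 : (0 : ℝ) < n := by
          have : 0 < n := by omega
          exact_mod_cast this
        set p := ⌊x * (n : ℝ)⌋₊ with hp
        have hpx : (p : ℝ) ≤ x * n := Nat.floor_le (by positivity)
        have hpn : (p : ℝ) < n := by nlinarith
        have hpn' : p < n := by exact_mod_cast hpn
        obtain ⟨m, hm⟩ : ∃ m, n = p + m := ⟨n - p, by omega⟩
        have hm1 : 1 ≤ m := by omega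
        have hm0 : (0 : ℝ) < m := by exact_mod_cast hm1
        have hp0 : (0 : ℝ) ≤ p := Nat.cast_nonneg p
        have hnr : (n : ℝ) = p + m := by
          have : ((n : ℕ) : ℝ) = ((p + m : ℕ) : ℝ) := by rw [← hm]
          push_cast at this
          exact this
        have h3 := ih p hpn'
        have h4 := hlo p m hm1
        rw [← hm] at h4
        have h5 := (abs_le.1 (hC1 m p hm1)).1
        have h6 := Sf_eq m p hm0 hp0
        have h7 : (p : ℝ) / n / (1 - (p : ℝ) / n) = p / m := by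
          have e1 : 1 - (p : ℝ) / n = m / n := by
            rw [hnr]; field_simp; ring
          rw [e1]
          field_simp
        rw [h7] at h1
        have h8 : 0 ≤ (n : ℝ) ^ 2 - (p : ℝ) ^ 2 := by nlinarith
        have h9 : (ph P - ε) * ((n : ℝ) ^ 2 - (p : ℝ) ^ 2) ≤ Sf m p := by
          rw [h6, ← hnr]
          exact mul_le_mul_of_nonneg_right h1.le h8
        have h10 : (1 - x ^ 2) * (n : ℝ) ^ 2 ≤ (n : ℝ) ^ 2 - (p : ℝ) ^ 2 := by
          have : (p : ℝ) ^ 2 ≤ (x * n) ^ 2 := by gcongr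
          nlinarith
        have h11 : C * m * Real.log (p + m + 1) ≤ C * n * Real.log ((n : ℝ) + 1) := by
          rw [← hnr]
          have : 0 ≤ Real.log ((n : ℝ) + 1) := Real.log_nonneg (by linarith)
          have : (m : ℝ) ≤ n := by linarith
          gcongr
        have h12 : ε * ((1 - x ^ 2) * (n : ℝ) ^ 2) ≤ ε * ((n : ℝ) ^ 2 - (p : ℝ) ^ 2) :=
          mul_le_mul_of_nonneg_left h10 hε.le
        nlinarith
  -- conclusion
  rw [Metric.tendsto_atTop]
  intro ε hε
  obtain ⟨K, hK⟩ := hlower (ε / 8) (by positivity)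
  have hlim1 : Tendsto (fun n : ℕ => C * (Real.log ((n : ℝ) + 1) / n)) atTop (𝓝 0) := by
    have h1 : Tendsto (fun y : ℝ => Real.log y / y) atTop (𝓝 0) := by
      have := Real.isLittleO_log_id_atTop
      exact this.tendsto_div_nhds_zero
    have h2 : Tendsto (fun n : ℕ => ((n : ℝ) + 1)) atTop atTop :=
      tendsto_atTop_add_const_right _ _ tendsto_natCast_atTop_atTop
    have h3 := h1.comp h2
    have h4 : Tendsto (fun n : ℕ => ((n : ℝ) + 1) / n) atTop (𝓝 1) := by
      have h5 : Tendsto (fun n : ℕ => 1 + 1 / (n : ℝ)) atTop (𝓝 (1 + 0)) :=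
        tendsto_const_nhds.add tendsto_one_div_atTop_nhds_zero_nat
      rw [add_zero] at h5
      apply h5.congr'
      filter_upwards [eventually_gt_atTop 0] with n hn
      have : (0 : ℝ) < n := by exact_mod_cast hn
      field_simp
    have h5 := (h3.mul h4).const_mul C
    rw [zero_mul, mul_zero] at h5
    apply h5.congr'
    filter_upwards [eventually_gt_atTop 0] with n hn
    have : (0 : ℝ) < n := by exact_mod_cast hn
    simp only [Function.comp]
    field_simp
  have hlim2 : Tendsto (fun n : ℕ => K / (n : ℝ) ^ 2) atTop (𝓝 0) := by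
    apply Tendsto.div_atTop tendsto_const_nhds
    exact (tendsto_pow_atTop (by norm_num)).comp tendsto_natCast_atTop_atTop
  obtain ⟨N1, hN1⟩ := eventually_atTop.1 ((hlim1.eventually_lt_const (show (0 : ℝ) < ε / 2 by
    positivity)).and ((hlim2.eventually_lt_const (show (0 : ℝ) < ε / 2 by positivity)).and
      (eventually_gt_atTop 0)))
  refine ⟨N1, fun n hn => ?_⟩
  obtain ⟨h1, h2, h3⟩ := hN1 n hn
  have hn0 : (0 : ℝ) < n := by exact_mod_cast h3
  have hn2 : (0 : ℝ) < (n : ℝ) ^ 2 := by positivity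
  rw [Real.dist_eq, abs_lt]
  constructor
  · have h4 := hK n
    have h5 : (ph P - 2 * (ε / 8)) - K / (n : ℝ) ^ 2 ≤ lam n / (n : ℝ) ^ 2 := by
      rw [le_div_iff₀ hn2, sub_mul, div_mul_cancel₀ _ hn2.ne']
      exact h4
    linarith
  · have h4 := hupper n
    have h5 : lam n / (n : ℝ) ^ 2 ≤ ph P + C * (Real.log ((n : ℝ) + 1) / n) := by
      rw [div_le_iff₀ hn2]
      have e : (ph P + C * (Real.log ((n : ℝ) + 1) / n)) * (n : ℝ) ^ 2
          = ph P * (n : ℝ) ^ 2 + C * n * Real.log (n + 1) := by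
        field_simp
      rw [e]
      exact h4
    linarith

end Pool.Agent.Helper94.LB
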