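import Pool.Agent.Helper94.LB.LayComb
import Pool.Agent.Helper94.LB.LayAna

/-! Module L of MP_660525_LB: the growth constant of the layered maximum is `ph P`. -/

namespace Pool.Agent.Helper94.LB

open Finset Pool.Agent.Helper78.Schub
open Pool.Agent.Helper43.LB (glue glue_left glue_right IsLayered isLayered_one layEval Zf Lf ip vn
  pp od Sf ph eval_glue)

theorem Zf_pos (m p : ℕ) : 0 < Zf m p := by
  unfold Zf Lf
  apply div_pos
  · apply mul_pos
    · unfold ip
      apply prod_pos
      intro s hs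
      rw [mem_Ico] at hs
      have : 0 < s := by omega
      exact_mod_cast this
    · unfold vn pp
      apply prod_pos
      intro t _
      apply prod_pos
      intro s hs
      obtain ⟨hs1, hs2⟩ := mem_filter.1 hs
      have h1 : (s : ℝ) < t := by exact_mod_cast hs2
      have h2 : (0 : ℝ) ≤ s := Nat.cast_nonneg s
      nlinarith
  · unfold od
    apply prod_pos
    intro l _
    exact_mod_cast Nat.factorial_pos _

section

variable (S : (n : ℕ) → Equiv.Perm (Fin n) → MvPolynomial (Fin n) ℤ)

open Classical in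
theorem le_layEval (n : ℕ) (w : Equiv.Perm (Fin n)) (hw : IsLayered w) :
    MvPolynomial.eval (fun _ => (1 : ℤ)) (S n w) ≤ layEval n (S n) := by
  unfold layEval
  exact le_sup' (fun w => MvPolynomial.eval (fun _ => (1 : ℤ)) (S n w)) (by simpa using hw)

open Classical in
theorem exists_layEval (n : ℕ) : ∃ w : Equiv.Perm (Fin n), IsLayered w ∧
    layEval n (S n) = MvPolynomial.eval (fun _ => (1 : ℤ)) (S n w) := by
  unfold layEval
  obtain ⟨w, hw, h⟩ := exists_mem_eq_sup' (s := univ.filter fun w : Equiv.Perm (Fin n) =>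
    IsLayered w) ⟨1, by simp [isLayered_one]⟩
    (fun w => MvPolynomial.eval (fun _ => (1 : ℤ)) (S n w))
  exact ⟨w, by simpa using hw, h⟩

variable (hS : ∀ n, IsSchubertFamily n (S n))

include hS

theorem eval_one (n : ℕ) : MvPolynomial.eval (fun _ => (1 : ℤ)) (S n 1) = 1 := by
  rw [eval_family _ (hS n), FF_one]

theorem one_le_layEval (n : ℕ) : 1 ≤ layEval n (S n) := by
  have := le_layEval S n 1 (isLayered_one n)
  rwa [eval_one S hS] at this

theorem layEval_zero : layEval 0 (S 0) = 1 := by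
  obtain ⟨w, -, hw⟩ := exists_layEval S 0
  have : w = 1 := Subsingleton.elim _ _
  rw [hw, this, eval_one S hS]

end

end Pool.Agent.Helper94.LB

namespace Pool.Agent.Helper43.LB

open Finset Pool.Agent.Helper78.Schub Pool.Agent.Helper94.LB

/-- growth of the layered maximum -/
theorem lay_main (S : (n : ℕ) → Equiv.Perm (Fin n) → MvPolynomial (Fin n) ℤ)
    (hS : ∀ n, IsSchubertFamily n (S n))
    (hZ : ∀ p m : ℕ, ((MvPolynomial.eval (fun _ => (1 : ℤ))
      (S (p + m) (glue 1 (Fin.revPerm : Equiv.Perm (Fin m)))) : ℤ) : ℝ) = Zf m p)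
    (hlog : ∃ C : ℝ, ∀ m p : ℕ, 1 ≤ m → |Real.log (Zf m p) - Sf m p| ≤ C * m * Real.log (p + m + 1))
    (P : ℝ) (hP0 : 0 < P) (hP : ∀ Q, 0 ≤ Q → ph Q ≤ ph P) :
    Filter.Tendsto (fun n : ℕ => Real.log (layEval n (S n)) / (n : ℝ) ^ 2) Filter.atTop
      (nhds (ph P)) := by
  have h1 : ∀ n, (1 : ℝ) ≤ (layEval n (S n) : ℝ) := fun n => by
    exact_mod_cast one_le_layEval S hS n
  apply growth (fun n => Real.log (layEval n (S n))) (fun m p => Real.log (Zf m p))
    (fun n => Real.log_nonneg (h1 n)) (by simp [layEval_zero S hS]) ?_ ?_ hlog P hP0 hP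
  · intro n hn
    obtain ⟨w, hw, hwe⟩ := exists_layEval S n
    obtain ⟨p, m, h, hm, w', hw', hww⟩ := exists_split hn w hw
    subst h
    refine ⟨p, m, rfl, hm, ?_⟩
    have e0 : w = glue w' (Fin.revPerm : Equiv.Perm (Fin m)) := by
      rw [hww]
      apply Equiv.ext
      intro i
      simp
    rw [e0, eval_glue S hS] at hwe
    have e1 : (layEval (p + m) (S (p + m)) : ℝ)
        = (MvPolynomial.eval (fun _ => (1 : ℤ)) (S p w') : ℤ) * Zf m p := by
      rw [hwe, ← hZ p m]
      push_cast
      rfl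
    have e2 : ((MvPolynomial.eval (fun _ => (1 : ℤ)) (S p w') : ℤ) : ℝ)
        ≤ (layEval p (S p) : ℝ) := by
      exact_mod_cast le_layEval S p w' hw'
    have hZp := Zf_pos m p
    have e3 : (layEval (p + m) (S (p + m)) : ℝ) ≤ (layEval p (S p) : ℝ) * Zf m p := by
      rw [e1]; exact mul_le_mul_of_nonneg_right e2 hZp.le
    have h2 := h1 (p + m)
    have h3 := h1 p
    rw [← Real.log_mul (by linarith) hZp.ne']
    exact Real.log_le_log (by linarith) e3
  · intro p m hm
    obtain ⟨w', hw', hwe⟩ := exists_layEval S p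
    have e1 := le_layEval S (p + m) _ (layered_glue (m := m) hw')
    rw [eval_glue S hS, ← hwe] at e1
    have e2 : (layEval p (S p) : ℝ) * Zf m p ≤ (layEval (p + m) (S (p + m)) : ℝ) := by
      rw [← hZ p m]
      exact_mod_cast e1
    have hZp := Zf_pos m p
    have h3 := h1 p
    rw [← Real.log_mul (by linarith) hZp.ne']
    exact Real.log_le_log (by positivity) e2

end Pool.Agent.Helper43.LB
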