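import Pool.Agent.Helper43.LB.Defs

/-! Module A of MP_660525_LB: the block sum of two permutations. -/

namespace Pool.Agent.Helper43.LB

/-- `w'` on the first `p` positions, `u` on the last `m` -/
def glue {p m : ℕ} (w' : Equiv.Perm (Fin p)) (u : Equiv.Perm (Fin m)) : Equiv.Perm (Fin (p + m)) :=
  finSumFinEquiv.permCongr (Equiv.sumCongr w' u)

theorem glue_left {p m : ℕ} (w' : Equiv.Perm (Fin p)) (u : Equiv.Perm (Fin m)) (i : Fin p) :
    glue w' u (Fin.castAdd m i) = Fin.castAdd m (w' i) := by
  simp [glue, Equiv.permCongr_apply]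

theorem glue_right {p m : ℕ} (w' : Equiv.Perm (Fin p)) (u : Equiv.Perm (Fin m)) (i : Fin m) :
    glue w' u (Fin.natAdd p i) = Fin.natAdd p (u i) := by
  simp [glue, Equiv.permCongr_apply]

theorem glue_one {p m : ℕ} : glue (1 : Equiv.Perm (Fin p)) (1 : Equiv.Perm (Fin m)) = 1 := by
  apply Equiv.ext
  intro i
  induction i using Fin.addCases with
  | left i => rw [glue_left]; rfl
  | right i => rw [glue_right]; rfl

theorem glue_mul {p m : ℕ} (w w' : Equiv.Perm (Fin p)) (u u' : Equiv.Perm (Fin m)) :
    glue w u * glue w' u' = glue (w * w') (u * u') := by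
  apply Equiv.ext
  intro i
  induction i using Fin.addCases with
  | left i => rw [Equiv.Perm.mul_apply, glue_left, glue_left, glue_left]; rfl
  | right i => rw [Equiv.Perm.mul_apply, glue_right, glue_right, glue_right]; rfl

theorem glue_injective {p m : ℕ} {w w' : Equiv.Perm (Fin p)} {u u' : Equiv.Perm (Fin m)}
    (h : glue w u = glue w' u') : w = w' ∧ u = u' := by
  constructor
  · apply Equiv.ext
    intro i
    have := congrArg (fun g : Equiv.Perm (Fin (p + m)) => g (Fin.castAdd m i)) h
    simp only [glue_left] at this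
    exact Fin.castAdd_injective p m this
  · apply Equiv.ext
    intro i
    have := congrArg (fun g : Equiv.Perm (Fin (p + m)) => g (Fin.natAdd p i)) h
    simp only [glue_right] at this
    exact Fin.natAdd_injective m p this

theorem glue_eq_one {p m : ℕ} (w : Equiv.Perm (Fin p)) (u : Equiv.Perm (Fin m)) :
    glue w u = 1 ↔ w = 1 ∧ u = 1 := by
  constructor
  · intro h
    rw [← glue_one] at h
    exact glue_injective h
  · rintro ⟨rfl, rfl⟩
    exact glue_one

end Pool.Agent.Helper43.LB
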