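import Pool.Agent.Helper94.LB.LayDef

/-! Module L of MP_660525_LB: decomposition of layered permutations. -/

namespace Pool.Agent.Helper94.LB

open Finset Pool.Agent.Helper78.Schub
open Pool.Agent.Helper43.LB (glue glue_left glue_right IsLayered isLayered_one layEval)

variable {p m : ℕ}

theorem castAdd_lt {i j : Fin p} : Fin.castAdd m i < Fin.castAdd m j ↔ i < j := Iff.rfl

theorem castAdd_le {i j : Fin p} : Fin.castAdd m i ≤ Fin.castAdd m j ↔ i ≤ j := Iff.rfl

theorem natAdd_lt {i j : Fin m} : Fin.natAdd p i < Fin.natAdd p j ↔ i < j := by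
  rw [Fin.lt_def, Fin.lt_def]
  simp only [Fin.val_natAdd]
  omega

theorem rev_lt {i j : Fin m} (h : i < j) :
    (Fin.revPerm : Equiv.Perm (Fin m)) j < (Fin.revPerm : Equiv.Perm (Fin m)) i := by
  simpa using h

theorem layered_glue {w' : Equiv.Perm (Fin p)} (hw : IsLayered w') :
    IsLayered (glue w' (Fin.revPerm : Equiv.Perm (Fin m))) := by
  obtain ⟨b, hb, hbb⟩ := hw
  set B : ℕ := univ.sup b + 1 with hB
  have hlt : ∀ i, b i < B := fun i => Nat.lt_succ_of_le (le_sup (mem_univ i))
  set c : Fin (p + m) → ℕ := Fin.addCases b (fun _ => B) with hc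
  have hcl : ∀ i : Fin p, c (Fin.castAdd m i) = b i := fun i => by simp [hc]
  have hcr : ∀ i : Fin m, c (Fin.natAdd p i) = B := fun i => by simp [hc]
  refine ⟨c, ?_, ?_⟩
  · intro i j hij
    induction i using Fin.addCases with
    | left i =>
      induction j using Fin.addCases with
      | left j =>
        rw [hcl, hcl]
        exact hb (castAdd_le.1 hij)
      | right j => rw [hcl, hcr]; exact (hlt i).le
    | right i =>
      induction j using Fin.addCases with
      | left j =>
        exfalso
        rw [Fin.le_def] at hij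
        simp only [Fin.val_natAdd, Fin.val_castAdd] at hij
        have := j.2
        omega
      | right j => rw [hcr, hcr]
  · intro i j hij
    induction i using Fin.addCases with
    | left i =>
      induction j using Fin.addCases with
      | left j =>
        rw [hcl, hcl, glue_left, glue_left, ← hbb i j (castAdd_lt.1 hij), castAdd_lt]
      | right j =>
        rw [hcl, hcr, glue_left, glue_right]
        constructor
        · intro h
          exfalso
          rw [Fin.lt_def] at h
          simp only [Fin.val_natAdd, Fin.val_castAdd] at h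
          have := (w' i).2
          omega
        · intro h
          exact absurd h (hlt i).ne
    | right i =>
      induction j using Fin.addCases with
      | left j =>
        exfalso
        rw [Fin.lt_def] at hij
        simp only [Fin.val_natAdd, Fin.val_castAdd] at hij
        have := j.2
        omega
      | right j =>
        rw [hcr, hcr, glue_right, glue_right]
        have h2 := rev_lt (natAdd_lt.1 hij)
        constructor
        · intro _; rfl
        · intro _
          exact natAdd_lt.2 h2

/-- a permutation whose first `p` values are below the others is a block sum -/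
theorem exists_glue_of_lt (w : Equiv.Perm (Fin (p + m)))
    (h : ∀ (i : Fin p) (j : Fin m), w (Fin.castAdd m i) < w (Fin.natAdd p j)) :
    ∃ (w' : Equiv.Perm (Fin p)) (u : Equiv.Perm (Fin m)), w = glue w' u := by
  classical
  have h1 : ∀ i : Fin p, (w (Fin.castAdd m i) : ℕ) < p := by
    intro i
    have hsub : (univ : Finset (Fin m)).image (fun j => w (Fin.natAdd p j))
        ⊆ Finset.Ioi (w (Fin.castAdd m i)) := by
      intro x hx
      obtain ⟨j, -, rfl⟩ := mem_image.1 hx
      exact Finset.mem_Ioi.2 (h i j)
    have hc := card_le_card hsub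
    rw [card_image_of_injective _ (show Function.Injective (fun j => w (Fin.natAdd p j)) from
      w.injective.comp (Fin.natAdd_injective m p)), card_univ,
      Fintype.card_fin, Fin.card_Ioi] at hc
    have := (w (Fin.castAdd m i)).2
    have := i.2
    omega
  have h2 : ∀ j : Fin m, p ≤ (w (Fin.natAdd p j) : ℕ) := by
    intro j
    have hsub : (univ : Finset (Fin p)).image (fun i => w (Fin.castAdd m i))
        ⊆ Finset.Iio (w (Fin.natAdd p j)) := by
      intro x hx
      obtain ⟨i, -, rfl⟩ := mem_image.1 hx
      exact Finset.mem_Iio.2 (h i j)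
    have hc := card_le_card hsub
    rw [card_image_of_injective _ (show Function.Injective (fun i => w (Fin.castAdd m i)) from
      w.injective.comp (Fin.castAdd_injective p m)), card_univ,
      Fintype.card_fin, Fin.card_Iio] at hc
    exact hc
  let f : Fin p → Fin p := fun i => ⟨w (Fin.castAdd m i), h1 i⟩
  let g : Fin m → Fin m := fun j => ⟨w (Fin.natAdd p j) - p, by
    have := h2 j
    have := (w (Fin.natAdd p j)).2
    omega⟩
  have hf : Function.Injective f := by
    intro i i' hii
    have h3 : ((f i : Fin p) : ℕ) = (f i' : ℕ) := by rw [hii]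
    exact Fin.castAdd_injective p m (w.injective (Fin.ext h3))
  have hg : Function.Injective g := by
    intro j j' hjj
    have h3 : (w (Fin.natAdd p j) : ℕ) - p = (w (Fin.natAdd p j') : ℕ) - p := congrArg Fin.val hjj
    have h4 := h2 j
    have h5 := h2 j'
    exact Fin.natAdd_injective m p (w.injective (Fin.ext (by omega)))
  refine ⟨Equiv.ofBijective f (Finite.injective_iff_bijective.1 hf),
    Equiv.ofBijective g (Finite.injective_iff_bijective.1 hg), ?_⟩
  apply Equiv.ext
  intro k
  induction k using Fin.addCases with
  | left i =>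
    rw [glue_left]
    rfl
  | right j =>
    rw [glue_right]
    apply Fin.ext
    rw [Fin.val_natAdd]
    have := h2 j
    show (w (Fin.natAdd p j) : ℕ) = p + ((w (Fin.natAdd p j) : ℕ) - p)
    omega

/-- the last block -/
theorem layered_split (w : Equiv.Perm (Fin (p + m))) (b : Fin (p + m) → ℕ) (hb : Monotone b)
    (hbb : ∀ i j : Fin (p + m), i < j → (w j < w i ↔ b i = b j)) (B : ℕ)
    (h1 : ∀ i : Fin p, b (Fin.castAdd m i) ≠ B) (h2 : ∀ j : Fin m, b (Fin.natAdd p j) = B) :
    ∃ w' : Equiv.Perm (Fin p), IsLayered w' ∧ w = glue w' (Fin.revPerm : Equiv.Perm (Fin m)) := by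
  have h3 : ∀ (i : Fin p) (j : Fin m), w (Fin.castAdd m i) < w (Fin.natAdd p j) := by
    intro i j
    have hij : Fin.castAdd m i < Fin.natAdd p j := by
      rw [Fin.lt_def]
      simp only [Fin.val_natAdd, Fin.val_castAdd]
      have := i.2
      omega
    by_contra hn
    rw [not_lt] at hn
    have h4 : w (Fin.natAdd p j) < w (Fin.castAdd m i) := by
      apply lt_of_le_of_ne hn
      intro e
      exact hij.ne' (w.injective e)
    rw [hbb _ _ hij, h2 j] at h4
    exact h1 i h4
  obtain ⟨w', u, rfl⟩ := exists_glue_of_lt w h3
  have hu : u = Fin.revPerm := by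
    apply eq_rev_of_no_asc
    intro i h
    rw [desc_of u i h]
    have h4 := hbb (Fin.natAdd p ⟨i, Nat.lt_of_succ_lt h⟩) (Fin.natAdd p ⟨i + 1, h⟩) (by
      rw [Fin.lt_def]
      simp only [Fin.val_natAdd]
      omega)
    rw [h2, h2, glue_right, glue_right] at h4
    have h5 := h4.2 rfl
    rw [Fin.lt_def] at h5 ⊢
    simp only [Fin.val_natAdd] at h5
    omega
  subst hu
  refine ⟨w', ⟨fun i => b (Fin.castAdd m i), ?_, ?_⟩, rfl⟩
  · intro i j hij
    apply hb
    rw [Fin.le_def] at hij ⊢
    simpa using hij
  · intro i j hij
    have h4 := hbb (Fin.castAdd m i) (Fin.castAdd m j) (by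
      rw [Fin.lt_def] at hij ⊢
      simpa using hij)
    rw [glue_left, glue_left] at h4
    rw [← h4, Fin.lt_def, Fin.lt_def]
    simp

/-- every non-empty layered permutation ends with a block -/
theorem exists_split {n : ℕ} (hn : 1 ≤ n) (w : Equiv.Perm (Fin n)) (hw : IsLayered w) :
    ∃ (p m : ℕ) (h : n = p + m), 1 ≤ m ∧ ∃ w' : Equiv.Perm (Fin p), IsLayered w' ∧
      w = (finCongr h).symm.permCongr (glue w' (Fin.revPerm : Equiv.Perm (Fin m))) := by
  classical
  obtain ⟨b, hb, hbb⟩ := hw
  set L : Fin n := ⟨n - 1, by omega⟩ with hL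
  have hLv : (L : ℕ) = n - 1 := rfl
  set p : ℕ := (univ.filter (fun i : Fin n => b i ≠ b L)).card with hp
  have hs : ∀ i j : Fin n, i ≤ j → b j ≠ b L → b i ≠ b L := by
    intro i j hij hj hi
    apply hj
    have h1 := hb hij
    have h2 : b j ≤ b L := hb (by
      rw [Fin.le_def]
      have := j.2
      omega)
    omega
  have hlow : ∀ i : Fin n, b i ≠ b L ↔ (i : ℕ) < p := by
    intro i
    constructor
    · intro hi
      have hsub : Finset.Iic i ⊆ univ.filter (fun i : Fin n => b i ≠ b L) := by
        intro j hj
        rw [mem_filter]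
        exact ⟨mem_univ _, hs j i (Finset.mem_Iic.1 hj) hi⟩
      have := card_le_card hsub
      rw [Fin.card_Iic] at this
      omega
    · intro hi
      by_contra hn
      have hsub : univ.filter (fun i : Fin n => b i ≠ b L) ⊆ Finset.Iio i := by
        intro j hj
        rw [mem_filter] at hj
        rw [Finset.mem_Iio]
        by_contra hji
        exact hs i j (not_lt.1 hji) hj.2 hn
      have := card_le_card hsub
      rw [Fin.card_Iio] at this
      omega
  have hpn : p < n := by
    have h1 := (hlow L).not.1 (by simp)
    omega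
  obtain ⟨m, hm⟩ : ∃ m, n = p + m := ⟨n - p, by omega⟩
  have hm1 : 1 ≤ m := by omega
  clear_value p L
  subst hm
  obtain ⟨w', hw', hww⟩ := layered_split w b hb hbb (b L)
    (fun i => (hlow _).2 (by simp)) (fun j => by
      have := (hlow (Fin.natAdd p j)).not.2 (by simp)
      push Not at this
      exact this)
  refine ⟨p, m, rfl, hm1, w', hw', ?_⟩
  rw [hww]
  apply Equiv.ext
  intro i
  simp

end Pool.Agent.Helper94.LB
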