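import Pool.Agent.Helper43.LB.Defs
import Pool.Agent.Helper94.LB.Glue

/-! Module L of MP_660525_LB: layered permutations, definitions. -/

namespace Pool.Agent.Helper43.LB

open Finset Pool.Agent.Helper78.Schub

/-- layered permutations: there are consecutive blocks (the level sets of a weakly increasing `b`)
such that two positions `i < j` form an inversion iff they lie in the same block -/
def IsLayered {n : ℕ} (w : Equiv.Perm (Fin n)) : Prop :=
  ∃ b : Fin n → ℕ, Monotone b ∧ ∀ i j : Fin n, i < j → (w j < w i ↔ b i = b j)

theorem isLayered_one (n : ℕ) : IsLayered (1 : Equiv.Perm (Fin n)) := by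
  refine ⟨fun i => (i : ℕ), fun i j hij => hij, ?_⟩
  intro i j hij
  simp only [Equiv.Perm.one_apply]
  constructor
  · intro h
    exact absurd hij (not_lt.2 h.le)
  · intro h
    exact absurd (Fin.ext h) hij.ne

open Classical in
/-- the maximal principal evaluation over the layered permutations of `S_n` -/
noncomputable def layEval (n : ℕ) (S : Equiv.Perm (Fin n) → MvPolynomial (Fin n) ℤ) : ℤ :=
  (univ.filter fun w : Equiv.Perm (Fin n) => IsLayered w).sup'
    ⟨1, by simp [isLayered_one]⟩ (fun w => MvPolynomial.eval (fun _ => (1 : ℤ)) (S w))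

end Pool.Agent.Helper43.LB
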